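import Pool.Agent.Q1.BA.CosetA
import Pool.Agent.Q1.BD.Arith

/-!
One closed set and one bound for all families of integral points of bounded degree given by iterated
recurrences of bounded complexity.
-/

set_option autoImplicit false

namespace Pool.Agent.Q1.BA

open Polynomial Filter Pool.Agent.Y377.IL Pool.Agent.Y377.IR Pool.Agent.Y377.ST IntermediateField
  Pool.Agent.Q1.BD

/-- The affine variety with the ideal `I` is covered by affine curves with a finite map of degree at
most `d` to the punctured line: there are a field `M` containing `k` and a point `y` of the variety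
over an extension `M(t)(θ)` of degree at most `d` of the field `M(t)`, whose coordinates are integral
over `M[t, 1/t]`, which is generic (the polynomials over `k` which vanish at `y` are those in `I`)
and not constant (some coordinate is not algebraic over `M`). -/
def CoveredA {k : Type} [Field k] {n : ℕ} (I : Ideal (MvPolynomial (Fin (n + 1)) k)) (d : ℕ) :
    Prop :=
  ∃ (M : Type) (_ : Field M) (_ : Algebra k M) (θ : AlgebraicClosure (RatFunc M))
    (y : Fin (n + 1) → AlgebraicClosure (RatFunc M)),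
    (minpoly (RatFunc M) θ).natDegree ≤ d ∧ (∀ u, y u ∈ (RatFunc M)⟮θ⟯) ∧
    (∀ u, LauInt M (y u)) ∧
    (∀ G : MvPolynomial (Fin (n + 1)) k, MvPolynomial.aeval y G = 0 ↔ G ∈ I) ∧
    ∃ u, ¬ IsAlgebraic M (y u)

/-- The points outside of `G = 0` with the coordinates `Num (x h) α`, `α` a root of `Pol (x h)`. -/
def rootPtsA {k L H : Type} [Field k] [Field L] [Algebra k L] {n d : ℕ}
    (G : MvPolynomial (Fin (n + 1)) k) (x : H → Jx n d → L) :
    Set (Fin (n + 1) → AlgebraicClosure L) :=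
  {P | ∃ (h : H) (α : AlgebraicClosure L), (Pol (bar (x h))).eval α = 0 ∧
    MvPolynomial.aeval (Num (bar (x h)) α) G ≠ 0 ∧ P = Num (bar (x h)) α}

theorem exists_seqRA {k : Type} [Field k] {n d s r e : ℕ}
    {FF : Set (MvPolynomial (Fin (n + 1)) k)} {G : MvPolynomial (Fin (n + 1)) k}
    {L : Type} [Field L] [Algebra k L] (τ : L →+* ℂ) {H : Type} [Group H] {x : H → Jx n d → L}
    (hx : IterFam s r e x)
    (hF : ∀ h α, (Pol (bar (x h))).eval α = 0 → ∀ F ∈ FF,
      MvPolynomial.aeval (Num (bar (x h)) α) F = 0) {B : ℕ}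
    (hB : ¬ (rootPtsA G x).encard ≤ (B : ℕ∞)) :
    ∃ (σ : k →+* ℂ) (H : Type) (_ : Group H) (z : H → Fin (Fintype.card (Jx n d)) → ℂ),
      IterVec s r e z ∧
      (∀ h α, (Pol fun q => z h (Fintype.equivFin _ q)).eval α = 0 → ∀ F ∈ FF,
        MvPolynomial.eval₂ σ (Num (fun q => z h (Fintype.equivFin _ q)) α) F = 0) ∧
      ∃ (hs : ℕ → H) (as : ℕ → ℂ),
        (∀ i, (Pol fun q => z (hs i) (Fintype.equivFin _ q)).eval (as i) = 0) ∧
        (∀ i, MvPolynomial.eval₂ σ (Num (fun q => z (hs i) (Fintype.equivFin _ q)) (as i)) G ≠ 0) ∧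
        ∀ i j, i ≤ B → j ≤ B → i ≠ j → ∃ u,
          Num (fun q => z (hs i) (Fintype.equivFin _ q)) (as i) u ≠
            Num (fun q => z (hs j) (Fintype.equivFin _ q)) (as j) u := by
  classical
  let iL : Algebra L ℂ := τ.toAlgebra
  let τ' : AlgebraicClosure L →ₐ[L] ℂ := IsAlgClosed.lift
  have hτ : ∀ c : L, τ' (algebraMap L _ c) = τ c := fun c => τ'.commutes c
  let z : H → Fin (Fintype.card (Jx n d)) → ℂ := fun h j => τ (x h ((Fintype.equivFin _).symm j))
  have hz : ∀ h, (fun q => z h (Fintype.equivFin _ q)) =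
      fun q => (τ' : AlgebraicClosure L →+* ℂ) (bar (x h) q) := by
    intro h
    funext q
    change τ (x h ((Fintype.equivFin _).symm (Fintype.equivFin _ q))) = _
    rw [Equiv.symm_apply_apply]
    exact (hτ _).symm
  have hnum : ∀ h α j, Num (fun q => z h (Fintype.equivFin _ q)) (τ' α) j =
      τ' (Num (bar (x h)) α j) := by
    intro h α j
    rw [hz h]
    exact num_map (τ' : AlgebraicClosure L →+* ℂ) (bar (x h)) α j
  have hpol : ∀ h α, (Pol fun q => z h (Fintype.equivFin _ q)).eval (τ' α) =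
      τ' ((Pol (bar (x h))).eval α) := by
    intro h α
    rw [hz h]
    exact eval_pol_map (τ' : AlgebraicClosure L →+* ℂ) (bar (x h)) α
  have hev : ∀ h α F, MvPolynomial.eval₂ (τ.comp (algebraMap k L))
      (Num (fun q => z h (Fintype.equivFin _ q)) (τ' α)) F =
      τ' (MvPolynomial.aeval (Num (bar (x h)) α) F) := by
    intro h α F
    have h1 := MvPolynomial.eval₂_comp_left (τ' : AlgebraicClosure L →+* ℂ)
      (algebraMap k (AlgebraicClosure L)) (Num (bar (x h)) α) F
    refine Eq.trans ?_ h1.symm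
    congr 1
    · ext c
      change _ = τ' (algebraMap k (AlgebraicClosure L) c)
      rw [IsScalarTower.algebraMap_apply k L (AlgebraicClosure L), hτ]
      rfl
    · funext j
      exact hnum h α j
  have hroots : ∀ h (α : ℂ), (Pol fun q => z h (Fintype.equivFin _ q)).eval α = 0 →
      ∃ α0, α = τ' α0 ∧ (Pol (bar (x h))).eval α0 = 0 := by
    intro h α hα
    obtain ⟨β, hβ⟩ := exists_roots (bar (x h))
    have h1 := pol_map (τ' : AlgebraicClosure L →+* ℂ) (bar (x h))
    rw [← hz h] at h1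
    rw [← h1, hβ, Polynomial.map_prod, eval_prod] at hα
    obtain ⟨j, -, hj⟩ := Finset.prod_eq_zero_iff.1 hα
    rw [Polynomial.map_sub, map_X, map_C, eval_sub, eval_X, eval_C] at hj
    refine ⟨β j, sub_eq_zero.1 hj, ?_⟩
    rw [hβ, eval_prod]
    exact Finset.prod_eq_zero (Finset.mem_univ j) (by simp)
  have h1 : ((B + 1 : ℕ) : ℕ∞) ≤ (rootPtsA G x).encard := by
    rw [Nat.cast_add, Nat.cast_one]
    exact Order.add_one_le_of_lt (not_le.1 hB)
  obtain ⟨t, hts, htc⟩ := Set.exists_subset_encard_eq h1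
  have htf : t.Finite := Set.finite_of_encard_eq_coe htc
  have hcard : htf.toFinset.card = B + 1 := by
    have h2 := htf.encard_eq_coe_toFinset_card
    rw [htc] at h2
    exact_mod_cast h2.symm
  let P : Fin (B + 1) ≃ htf.toFinset := (Finset.equivFinOfCardEq hcard).symm
  have hP : ∀ i : Fin (B + 1), ((P i : htf.toFinset) :
      Fin (n + 1) → AlgebraicClosure L) ∈ rootPtsA G x :=
    fun i => hts (htf.mem_toFinset.1 (P i).2)
  choose hs0 as0 hr0 hG0 hPe using hP
  let c : ℕ → Fin (B + 1) := fun i => if hi : i < B + 1 then ⟨i, hi⟩ else 0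
  refine ⟨τ.comp (algebraMap k L), H, inferInstance, z, ?_, ?_, fun i => hs0 (c i),
    fun i => τ' (as0 (c i)), ?_, ?_, ?_⟩
  · exact (hx.vec).map τ
  · intro h α hα F hFF
    obtain ⟨α0, rfl, hα0⟩ := hroots h α hα
    rw [hev, hF h α0 hα0 F hFF, map_zero]
  · intro i
    rw [hpol, hr0, map_zero]
  · intro i h2
    apply hG0 (c i)
    rw [hev] at h2
    exact (map_eq_zero τ').1 h2
  · intro i j hi hj hij
    have hci : c i = ⟨i, by omega⟩ := dif_pos (by omega)
    have hcj : c j = ⟨j, by omega⟩ := dif_pos (by omega)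
    have hcij : c i ≠ c j := by
      rw [hci, hcj]
      intro h2
      exact hij (Fin.mk.inj_iff.1 h2)
    by_contra hcon
    push Not at hcon
    apply hcij
    apply P.injective
    apply Subtype.ext
    rw [hPe (c i), hPe (c j)]
    funext u
    have h2 := hcon u
    rw [hnum, hnum] at h2
    exact (τ' : AlgebraicClosure L →+* ℂ).injective h2

/-- **One closed set and one bound for integral points of bounded degree.** -/
theorem strong_bdA {k : Type} [Field k] [Countable k] {n : ℕ}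
    (I : Ideal (MvPolynomial (Fin (n + 1)) k)) (hprime : I.IsPrime) (d : ℕ)
    (hnu : ¬ CoveredA I d) (s r e : ℕ) :
    ∃ G : MvPolynomial (Fin (n + 1)) k, G ∉ I ∧
      ∃ B : ℕ, ∀ (L : Type) [Field L] [Algebra k L] (_ : L →+* ℂ) (H : Type) [Group H]
        (x : H → Jx n d → L), IterFam s r e x →
        (∀ h α, (Pol (bar (x h))).eval α = 0 → ∀ F ∈ I,
          MvPolynomial.aeval (Num (bar (x h)) α) F = 0) →
        (rootPtsA G x).encard ≤ (B : ℕ∞) := by
  classical
  by_contra hcon
  have hC : ∀ (G : MvPolynomial (Fin (n + 1)) k) (B : ℕ), G ∉ I →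
      ∃ (σ : k →+* ℂ) (H : Type) (_ : Group H) (z : H → Fin (Fintype.card (Jx n d)) → ℂ),
      IterVec s r e z ∧
      (∀ h α, (Pol fun q => z h (Fintype.equivFin _ q)).eval α = 0 → ∀ F ∈ I,
        MvPolynomial.eval₂ σ (Num (fun q => z h (Fintype.equivFin _ q)) α) F = 0) ∧
      ∃ (hs : ℕ → H) (as : ℕ → ℂ),
        (∀ i, (Pol fun q => z (hs i) (Fintype.equivFin _ q)).eval (as i) = 0) ∧
        (∀ i, MvPolynomial.eval₂ σ (Num (fun q => z (hs i) (Fintype.equivFin _ q)) (as i)) G ≠ 0) ∧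
        ∀ i j, i ≤ B → j ≤ B → i ≠ j → ∃ u,
          Num (fun q => z (hs i) (Fintype.equivFin _ q)) (as i) u ≠
            Num (fun q => z (hs j) (Fintype.equivFin _ q)) (as j) u := by
    intro G B hG2
    by_contra h1
    refine hcon ⟨G, hG2, B, ?_⟩
    intro L _ _ τ H _ x hx hF
    by_contra h2
    exact h1 (exists_seqRA (FF := (I : Set (MvPolynomial (Fin (n + 1)) k))) τ hx hF h2)
  -- an enumeration of the forms
  let S : Type := {G : MvPolynomial (Fin (n + 1)) k // G ∉ I}
  have hcs : Countable (MvPolynomial (Fin (n + 1)) k) := by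
    rw [← Cardinal.mk_le_aleph0_iff]
    refine MvPolynomial.cardinalMk_le_max.trans ?_
    exact max_le (max_le (Cardinal.mk_le_aleph0_iff.2 inferInstance)
      (Cardinal.mk_le_aleph0_iff.2 inferInstance)) le_rfl
  have hne : Nonempty S := ⟨⟨1, fun h1 => hprime.ne_top ((Ideal.eq_top_iff_one _).2 h1)⟩⟩
  obtain ⟨en, hen⟩ := exists_surjective_nat S
  let Q : ℕ → MvPolynomial (Fin (n + 1)) k := fun i => ∏ j ∈ Finset.range (i + 1), (en j).1
  have hQ2 : ∀ i, Q i ∉ I := by
    intro i h1
    obtain ⟨j, -, hj⟩ := (hprime.prod_mem_iff).1 h1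
    exact (en j).2 hj
  choose σ Hs iH z hz hF hs as hrt hG hnp using fun i => hC (Q i) i (hQ2 i)
  obtain ⟨Θ, hΘ⟩ := Pool.Agent.Y455.ST.t_THETA
  let σs : k →+* ℂ := Θ.comp (RingHom.pi σ)
  let zs : (∀ i, Hs i) → Fin (Fintype.card (Jx n d)) → ℂ := fun h j => Θ fun i => z i (h i) j
  have hzs : IterVec s r e zs := (IterVec.prod hz).map Θ
  let X : ∀ i, Hs i → Jx n d → ℂ := fun i h q => z i h (Fintype.equivFin _ q)
  let xs : (∀ i, Hs i) → Jx n d → ℂ := fun h q => Θ fun i => X i (h i) q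
  have key : ∀ (F : MvPolynomial (Fin (n + 1)) k) (w : ℕ → Fin (n + 1) → ℂ),
      MvPolynomial.eval₂ σs (fun u => Θ fun i => w i u) F =
        Θ fun i => MvPolynomial.eval₂ (σ i) (w i) F := by
    intro F w
    have h1 := MvPolynomial.eval₂_comp_left Θ (RingHom.pi σ) (fun u i => w i u) F
    have h2 : MvPolynomial.eval₂ (RingHom.pi σ) (fun u i => w i u) F =
        fun i => MvPolynomial.eval₂ (σ i) (w i) F := by
      funext i
      exact MvPolynomial.eval₂_comp_left (Pi.evalRingHom (fun _ : ℕ => ℂ) i) (RingHom.pi σ)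
        (fun u i => w i u) F
    rw [h2] at h1
    exact h1.symm
  have hnumS : ∀ (h : ∀ i, Hs i) (b : ℕ → ℂ) u, Num (xs h) (Θ b) u =
      Θ fun i => Num (X i (h i)) (b i) u := by
    intro h b u
    have h1 := num_map Θ (fun q i => X i (h i) q) b u
    refine h1.trans ?_
    congr 1
    funext i
    exact (num_map (Pi.evalRingHom (fun _ : ℕ => ℂ) i) (fun q i => X i (h i) q) b u).symm
  have hpolS : ∀ (h : ∀ i, Hs i) (b : ℕ → ℂ), (Pol (xs h)).eval (Θ b) =
      Θ fun i => (Pol (X i (h i))).eval (b i) := by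
    intro h b
    have h1 := eval_pol_map Θ (fun q i => X i (h i) q) b
    refine h1.trans ?_
    congr 1
    funext i
    exact (eval_pol_map (Pi.evalRingHom (fun _ : ℕ => ℂ) i) (fun q i => X i (h i) q) b).symm
  have hrootS : ∀ (h : ∀ i, Hs i) (α : ℂ), (Pol (xs h)).eval α = 0 → ∃ b : ℕ → ℂ, α = Θ b ∧
      ∀ i, (Pol (X i (h i))).eval (b i) = 0 := by
    intro h α hα
    choose β hβ using fun i => exists_roots (X i (h i))
    have h1 : Pol (fun q i => X i (h i) q) =
        ∏ j, (Polynomial.X - C (fun i => β i j) : (ℕ → ℂ)[X]) := by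
      ext m i
      have h2 := congrArg (fun p => p.coeff m) (hβ i)
      have h3 := pol_map (Pi.evalRingHom (fun _ : ℕ => ℂ) i) (fun q i => X i (h i) q)
      have h4 : (Pol (fun q i => X i (h i) q)).coeff m i = (Pol (X i (h i))).coeff m := by
        have h5 := congrArg (fun p => p.coeff m) h3
        simp only [coeff_map] at h5
        exact h5
      have h6 : (∏ j, (Polynomial.X - C (fun i => β i j) : (ℕ → ℂ)[X])).coeff m i =
          (∏ j, (Polynomial.X - C (β i j))).coeff m := by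
        have h7 : (∏ j, (Polynomial.X - C (fun i => β i j) : (ℕ → ℂ)[X])).map
            (Pi.evalRingHom (fun _ : ℕ => ℂ) i) = ∏ j, (Polynomial.X - C (β i j)) := by
          rw [Polynomial.map_prod]
          refine Finset.prod_congr rfl fun j _ => ?_
          rw [Polynomial.map_sub, map_X, map_C]
          rfl
        have h8 := congrArg (fun p => p.coeff m) h7
        simp only [coeff_map] at h8
        exact h8
      rw [h4, h6]
      exact h2
    have h2 := pol_map Θ (fun q i => X i (h i) q)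
    rw [h1] at h2
    have h3 : (Pol (xs h)).eval α = ∏ j, (α - Θ fun i => β i j) := by
      have h4 : Pol (xs h) = Pol (fun q => Θ fun i => X i (h i) q) := rfl
      rw [h4, ← h2, Polynomial.map_prod, eval_prod]
      refine Finset.prod_congr rfl fun j _ => ?_
      rw [Polynomial.map_sub, map_X, map_C, eval_sub, eval_X, eval_C]
    rw [h3] at hα
    obtain ⟨j, -, hj⟩ := Finset.prod_eq_zero_iff.1 hα
    refine ⟨fun i => β i j, sub_eq_zero.1 hj, fun i => ?_⟩
    rw [hβ i, eval_prod]
    exact Finset.prod_eq_zero (Finset.mem_univ j) (by simp)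
  let a : ℕ → ∀ i, Hs i := fun m i => hs i m
  let al : ℕ → ℂ := fun m => Θ fun i => as i m
  have hzero : ∀ F ∈ I, ∀ h α, (Pol (xs h)).eval α = 0 →
      MvPolynomial.eval₂ σs (Num (xs h) α) F = 0 := by
    intro F hFF h α hα
    obtain ⟨b, rfl, hb⟩ := hrootS h α hα
    have h1 : Num (xs h) (Θ b) = fun u => Θ fun i => Num (X i (h i)) (b i) u :=
      funext fun u => hnumS h b u
    rw [h1, key]
    have h2 : (fun i => MvPolynomial.eval₂ (σ i) (Num (X i (h i)) (b i)) F) = 0 :=
      funext fun i => hF i (h i) (b i) (hb i) F hFF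
    rw [h2, map_zero]
  have hrootA : ∀ m, (Pol (xs (a m))).eval (al m) = 0 := by
    intro m
    rw [hpolS]
    have h2 : (fun i => (Pol (X i (a m i))).eval (as i m)) = 0 := funext fun i => hrt i m
    rw [h2, map_zero]
  have hnumA : ∀ m, Num (xs (a m)) (al m) =
      fun u => Θ fun i => Num (X i (hs i m)) (as i m) u := fun m => funext fun u => hnumS _ _ u
  have hnz : ∀ G : MvPolynomial (Fin (n + 1)) k, G ∉ I →
      ∀ m, MvPolynomial.eval₂ σs (Num (xs (a m)) (al m)) G ≠ 0 := by
    intro G hG2 m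
    obtain ⟨j, hj⟩ := hen ⟨G, hG2⟩
    rw [hnumA, key]
    have h6 : ∀ i, j ≤ i →
        MvPolynomial.eval₂ (σ i) (Num (X i (hs i m)) (as i m)) G ≠ 0 := by
      intro i hi h5
      have h4 : (en j).1 ∣ Q i := Finset.dvd_prod_of_mem (fun j => (en j).1)
        (Finset.mem_range.2 (by omega))
      rw [hj] at h4
      obtain ⟨G', hG'⟩ := h4
      apply hG i m
      change MvPolynomial.eval₂ (σ i) (Num (X i (hs i m)) (as i m)) (Q i) = 0
      rw [hG', MvPolynomial.eval₂_mul, h5, zero_mul]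
    obtain ⟨-, h1⟩ := theta_ne hΘ
      (fun _ : Unit => fun i => MvPolynomial.eval₂ (σ i) (Num (X i (hs i m)) (as i m)) G) j
      (fun i hi => ⟨(), h6 i hi⟩)
    exact h1
  have hdist : ∀ m m', m ≠ m' → ∃ u,
      Num (xs (a m)) (al m) u ≠ Num (xs (a m')) (al m') u := by
    intro m m' hmm
    obtain ⟨u, h1⟩ := theta_ne hΘ (fun (u : Fin (n + 1)) i =>
      Num (X i (hs i m)) (as i m) u - Num (X i (hs i m')) (as i m') u) (max m m')
      (fun i hi => by
        obtain ⟨u, h1⟩ := hnp i m m' ((le_max_left _ _).trans hi)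
          ((le_max_right _ _).trans hi) hmm
        exact ⟨u, sub_ne_zero.2 h1⟩)
    refine ⟨u, fun h2 => h1 ?_⟩
    rw [hnumA, hnumA] at h2
    have h3 : (fun i => Num (X i (hs i m)) (as i m) u - Num (X i (hs i m')) (as i m') u) =
        (fun i => Num (X i (hs i m)) (as i m) u) - (fun i => Num (X i (hs i m')) (as i m') u) := rfl
    change Θ (fun i => Num (X i (hs i m)) (as i m) u - Num (X i (hs i m')) (as i m') u) = 0
    rw [h3, map_sub]
    exact sub_eq_zero.2 h2
  -- the coset
  obtain ⟨R, hR, hmem⟩ := hzs.tow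
  obtain ⟨Nn, hn, hfi, hres⟩ := exists_res fhyp hR
  have hq : Finite ((∀ i, Hs i) ⧸ Nn) := inferInstance
  obtain ⟨y0, hy0⟩ := Finite.exists_infinite_fiber
    fun m : ℕ => (QuotientGroup.mk (a m) : (∀ i, Hs i) ⧸ Nn)
  let T : Set ℕ := (fun m : ℕ => (QuotientGroup.mk (a m) : (∀ i, Hs i) ⧸ Nn)) ⁻¹' {y0}
  have hT : T.Infinite := Set.infinite_coe_iff.1 hy0
  obtain ⟨m0, hm0⟩ := hT.nonempty
  have hco : ∀ m ∈ T, a m * (a m0)⁻¹ ∈ Nn := by
    intro m hm
    have h1 : (QuotientGroup.mk (a m0) : (∀ i, Hs i) ⧸ Nn) = QuotientGroup.mk (a m) :=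
      (Set.mem_singleton_iff.1 hm0).trans (Set.mem_singleton_iff.1 hm).symm
    exact hn.mem_comm (QuotientGroup.eq.1 h1)
  obtain ⟨K, i1, i2, Γ, ρ, hρ⟩ := hres (a m0)
  have hEng : Eng ρ.range := fun t ht hne => coset_alt hyp ghyp hρ t ht hne
  obtain ⟨E, j1, j2, y, ⟨⟨M, l1, l2, y', θ', hθi, hθd, hyθ, hyL, hrel, u, hu⟩⟩, hFq, hGq⟩ :=
    coset_ptA (x := xs) (fun q => hmem _) hρ hEng a al T hT hco (fun m _ => hrootA m)
      (fun m _ m' _ hmm => hdist m m' hmm)
      {G' | ∃ G : MvPolynomial (Fin (n + 1)) k, G ∉ I ∧ G' = MvPolynomial.map σs G} (by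
        rintro _ ⟨G, hG2, rfl⟩ m _
        rw [MvPolynomial.eval_map]
        exact hnz G hG2 m)
  apply hnu
  let iM : Algebra k M := ((algebraMap ℂ M).comp σs).toAlgebra
  have hal : algebraMap k (AlgebraicClosure (RatFunc M)) =
      (algebraMap ℂ (AlgebraicClosure (RatFunc M))).comp σs := by
    ext c
    rw [IsScalarTower.algebraMap_apply k (RatFunc M) (AlgebraicClosure (RatFunc M)),
      IsScalarTower.algebraMap_apply k M (RatFunc M), RingHom.comp_apply,
      IsScalarTower.algebraMap_apply ℂ (RatFunc M) (AlgebraicClosure (RatFunc M)),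
      IsScalarTower.algebraMap_apply ℂ M (RatFunc M)]
    rfl
  have hae : ∀ F : MvPolynomial (Fin (n + 1)) k, MvPolynomial.aeval y' F =
      MvPolynomial.aeval y' (MvPolynomial.map σs F) := by
    intro F
    rw [MvPolynomial.aeval_def, MvPolynomial.aeval_def, MvPolynomial.eval₂_map, hal]
  have hF0 : ∀ F ∈ I, MvPolynomial.aeval y' F = 0 := by
    intro F hFF
    rw [hae, hrel]
    refine hFq _ fun h α _ hα => ?_
    rw [MvPolynomial.eval_map]
    exact hzero F hFF h α hα
  refine ⟨M, l1, iM, θ', y', hθd, hyθ, hyL, fun G => ⟨fun h1 => ?_, hF0 G⟩, u, hu⟩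
  by_contra h2
  rw [hae, hrel] at h1
  exact hGq _ ⟨G, h2, rfl⟩ h1

end Pool.Agent.Q1.BA
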