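import Pool.Agent.Q1.BA.ArithA
import Pool.Agent.Q1.BD.Curve

/-!
Algebroid curves in affine varieties given by iterated linear differential equations.
-/

set_option autoImplicit false

namespace Pool.Agent.Q1.BA

open Filter Polynomial Set Pool.Agent.TH143 Pool.Agent.Y377.IL Pool.Agent.Y377.ST
  Pool.Agent.Q1.SL Pool.Agent.Y377.EL IntermediateField Pool.Agent.Q1.BD

theorem bot_fg {K : Type} [Field K] [Algebra ℂ K] : (⊥ : Subalgebra ℂ K).FG := Subalgebra.fg_bot

/-- a generic integral point of bounded degree -/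
theorem gon_pointDA {K : Type} [Field K] [Algebra ℂ K] {D : Derivation ℂ K K} (hC : Cst D)
    {s r e n d : ℕ} {x : Jx n d → K} (hx : DFamF D s r e x) {α : K} (hα : (Pol x).eval α = 0)
    {u : Fin (n + 1)} (hu : D (Num x α u) ≠ 0) : GonPtA d K (Num x α) := by
  classical
  obtain ⟨R, hR, hmem⟩ := hx.vec.tow
  have hmem' : ∀ q, x q ∈ R := by
    intro q
    have h1 := hmem (Fintype.equivFin _ q)
    rwa [Equiv.symm_apply_apply] at h1
  have hEng : Eng R := fun t ht hne => hyp.main hC (goodB_bot D) hR ht hne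
  have hgood := LTow.good hyp.noe hyp.rng hC (goodB_bot D) hR
  have hnor := normal_D hgood.st hgood.sim hgood.noe (ltow_fg bot_fg hR)
  let cF : Jx n d → frac R := fun q => ⟨x q, le_frac R (hmem' q)⟩
  let cR : Jx n d → R := fun q => ⟨x q, hmem' q⟩
  have hroot : aeval α (Pol cF) = 0 := by
    rw [aeval_def, ← eval_map, pol_map]
    exact hα
  have hαi : IsIntegral (frac R) α := ⟨Pol cF, pol_monic cF, hroot⟩
  have hαR : IsIntegral R α := by
    refine ⟨Pol cR, pol_monic cR, ?_⟩
    rw [← eval_map, pol_map]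
    exact hα
  refine ptA hEng (Num x α) α hαi ?_ ?_ ⟨u, fun hal => ?_⟩ hnor ?_
  · have h1 := natDegree_le_natDegree (minpoly.min (frac R) α (pol_monic cF) hroot)
    rwa [pol_degree] at h1
  · intro w
    have h2 : Num x α w = ∑ i : Fin d, algebraMap (frac R) K (cF (some w, i)) *
        α ^ (i : ℕ) := rfl
    rw [h2]
    exact sum_mem fun i _ => mul_mem (IntermediateField.algebraMap_mem _ _)
      (pow_mem (IntermediateField.mem_adjoin_simple_self _ _) _)
  · obtain ⟨c, hc⟩ := const_of_algC hal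
    apply hu
    rw [← hc, D.map_algebraMap]
  · intro w
    have h1 : IsIntegral R (Num x α w) := by
      have h2 : Num x α w = ∑ i : Fin d, algebraMap R K (cR (some w, i)) *
          α ^ (i : ℕ) := rfl
      rw [h2]
      exact IsIntegral.sum _ fun i _ => (isIntegral_algebraMap).mul (hαR.pow _)
    obtain ⟨P, hP1, hP2⟩ := h1
    refine ⟨P.map (algebraMap R K), hP1.map _, fun i => ?_, ?_⟩
    · rw [coeff_map]
      exact (P.coeff i).2
    · rw [aeval_map_algebraMap]
      exact hP2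

/-- **One closed set for all algebroid curves of bounded degree and complexity.** -/
theorem strong_bd_diffA {k : Type} [Field k] [Countable k] {n : ℕ}
    (I : Ideal (MvPolynomial (Fin (n + 1)) k)) (hprime : I.IsPrime) (d : ℕ)
    (hnu : ¬ CoveredA I d) (s r e : ℕ) :
    ∃ G : MvPolynomial (Fin (n + 1)) k, G ∉ I ∧
      ∀ (σ : k →+* ℂ) (K : Type) [Field K] [Algebra ℂ K] (D : Derivation ℂ K K), Cst D →
        ∀ (x : Jx n d → K) (α : K), DFamF D s r e x → (Pol x).eval α = 0 →
        (∀ F ∈ I, MvPolynomial.eval₂ ((algebraMap ℂ K).comp σ) (Num x α) F = 0) →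
        (∃ u, D (Num x α u) ≠ 0) →
          MvPolynomial.eval₂ ((algebraMap ℂ K).comp σ) (Num x α) G = 0 := by
  classical
  by_contra hcon
  have hC : ∀ G : MvPolynomial (Fin (n + 1)) k, G ∉ I →
      ∃ (σ : k →+* ℂ) (K : Type) (_ : Field K) (_ : Algebra ℂ K) (D : Derivation ℂ K K)
        (x : Jx n d → K) (α : K), Cst D ∧ DFamF D s r e x ∧ (Pol x).eval α = 0 ∧
        (∀ F ∈ I, MvPolynomial.eval₂ ((algebraMap ℂ K).comp σ) (Num x α) F = 0) ∧
        (∃ u, D (Num x α u) ≠ 0) ∧
        MvPolynomial.eval₂ ((algebraMap ℂ K).comp σ) (Num x α) G ≠ 0 := by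
    intro G hG2
    by_contra h1
    refine hcon ⟨G, hG2, ?_⟩
    intro σ K _ _ D hCD x α hx hα hF huv
    by_contra h2
    exact h1 ⟨σ, K, _, _, D, x, α, hCD, hx, hα, hF, huv, h2⟩
  -- an enumeration of the forms
  let S : Type := {G : MvPolynomial (Fin (n + 1)) k // G ∉ I}
  have hcs : Countable (MvPolynomial (Fin (n + 1)) k) := by
    rw [← Cardinal.mk_le_aleph0_iff]
    refine MvPolynomial.cardinalMk_le_max.trans ?_
    exact max_le (max_le (Cardinal.mk_le_aleph0_iff.2 inferInstance)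
      (Cardinal.mk_le_aleph0_iff.2 inferInstance)) le_rfl
  have hne : Nonempty S := ⟨⟨1, fun h1 => hprime.ne_top ((Ideal.eq_top_iff_one _).2 h1)⟩⟩
  obtain ⟨en, hen⟩ := exists_surjective_nat S
  let Q : ℕ → MvPolynomial (Fin (n + 1)) k := fun i => ∏ j ∈ Finset.range (i + 1), (en j).1
  have hQ2 : ∀ i, Q i ∉ I := by
    intro i h1
    obtain ⟨j, -, hj⟩ := (hprime.prod_mem_iff).1 h1
    exact (en j).2 hj
  choose σ K iK jK D x al hCD hx hal0 hF huv hG using fun i => hC (Q i) (hQ2 i)
  obtain ⟨K', iK', jK', D', π, θ, hC', hD', hal, hker, hkθ⟩ := exists_ultra D hCD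
  let σ' : k →+* ℂ := θ.comp (RingHom.pi σ)
  let x' : Jx n d → K' := fun q => π fun i => x i q
  let α' : K' := π al
  have hx' : DFamF D' s r e x' := by
    have h1 := DVecF.ultra hD' hal fun i => (hx i).vec
    obtain ⟨X, Y, hX, hc⟩ := h1
    refine ⟨X, Y, hX, fun q => ?_⟩
    obtain ⟨c, hc⟩ := hc (Fintype.equivFin _ q)
    refine ⟨c, ?_⟩
    rw [← hc]
    simp only [Equiv.symm_apply_apply]
    rfl
  have hnum : ∀ u, Num x' α' u = π fun i => Num (x i) (al i) u := by
    intro u
    have h1 := num_map π (fun q i => x i q) al u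
    refine h1.trans ?_
    congr 1
    funext i
    exact (num_map (Pi.evalRingHom K i) (fun q i => x i q) al u).symm
  have hpol : (Pol x').eval α' = 0 := by
    have h1 := eval_pol_map π (fun q i => x i q) al
    have h2 : (Pol fun q i => x i q).eval al = 0 := by
      funext i
      exact (eval_pol_map (Pi.evalRingHom K i) (fun q i => x i q) al).symm.trans (hal0 i)
    rw [h2, map_zero] at h1
    exact h1
  have key : ∀ F : MvPolynomial (Fin (n + 1)) k,
      MvPolynomial.eval₂ ((algebraMap ℂ K').comp σ') (Num x' α') F =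
        π fun i => MvPolynomial.eval₂ ((algebraMap ℂ (K i)).comp (σ i)) (Num (x i) (al i)) F := by
    intro F
    let τ : k →+* (∀ i, K i) := RingHom.pi fun i => (algebraMap ℂ (K i)).comp (σ i)
    have h1 := MvPolynomial.eval₂_comp_left π τ (fun j i => Num (x i) (al i) j) F
    have h2 : MvPolynomial.eval₂ τ (fun j i => Num (x i) (al i) j) F =
        fun i => MvPolynomial.eval₂ ((algebraMap ℂ (K i)).comp (σ i)) (Num (x i) (al i)) F := by
      funext i
      exact MvPolynomial.eval₂_comp_left (Pi.evalRingHom K i) τ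
        (fun j i => Num (x i) (al i) j) F
    rw [h2] at h1
    have h3 : π.comp τ = (algebraMap ℂ K').comp σ' := by
      ext c
      exact hal fun i => σ i c
    have h4 : Num x' α' = π ∘ fun j i => Num (x i) (al i) j := funext hnum
    rw [h3] at h1
    rw [h4]
    exact h1.symm
  have hzero : ∀ F ∈ I,
      MvPolynomial.eval₂ ((algebraMap ℂ K').comp σ') (Num x' α') F = 0 := by
    intro F hFF
    rw [key]
    have h1 : (fun i => MvPolynomial.eval₂ ((algebraMap ℂ (K i)).comp (σ i))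
        (Num (x i) (al i)) F) = 0 := funext fun i => hF i F hFF
    rw [h1, map_zero]
  have hnz : ∀ G : MvPolynomial (Fin (n + 1)) k, G ∉ I →
        MvPolynomial.eval₂ ((algebraMap ℂ K').comp σ') (Num x' α') G ≠ 0 := by
    intro G hG2 h0
    obtain ⟨j, hj⟩ := hen ⟨G, hG2⟩
    rw [key, hker] at h0
    have hge : ∀ᶠ i in (hyperfilter ℕ : Filter ℕ), j ≤ i := by
      have h1 : ∀ᶠ i : ℕ in cofinite, j ≤ i := by
        rw [Nat.cofinite_eq_atTop]
        exact eventually_ge_atTop j
      exact h1.filter_mono hyperfilter_le_cofinite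
    obtain ⟨i, h5, hi⟩ := (h0.and hge).exists
    have h4 : (en j).1 ∣ Q i := Finset.dvd_prod_of_mem (fun j => (en j).1)
      (Finset.mem_range.2 (by omega))
    rw [hj] at h4
    obtain ⟨G', hG'⟩ := h4
    apply hG i
    rw [hG', MvPolynomial.eval₂_mul]
    change MvPolynomial.eval₂ ((algebraMap ℂ (K i)).comp (σ i)) (Num (x i) (al i)) G * _ = 0
    rw [h5, zero_mul]
  have hcross : ∃ u, D' (Num x' α' u) ≠ 0 := by
    choose u huv using huv
    obtain ⟨u0, h1⟩ : ∃ p : Fin (n + 1), ∀ᶠ i in (hyperfilter ℕ : Filter ℕ), u i = p := by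
      by_contra hno
      push Not at hno
      have h3 : ∀ᶠ i in (hyperfilter ℕ : Filter ℕ), ∀ p : Fin (n + 1), u i ≠ p :=
        eventually_all.2 fun p => hno p
      obtain ⟨i, hi⟩ := h3.exists
      exact hi _ rfl
    refine ⟨u0, fun h2 => ?_⟩
    rw [hnum, hD', hker] at h2
    obtain ⟨i, h5, h6⟩ := (h2.and h1).exists
    apply huv i
    rw [h6]
    exact h5
  obtain ⟨u, hu'⟩ := hcross
  obtain ⟨⟨M, l1, l2, y', θ', hθi, hθd, hyθ, hyL, hrel, w, hw⟩⟩ := gon_pointDA hC' hx' hpol hu'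
  apply hnu
  let iM : Algebra k M := ((algebraMap ℂ M).comp σ').toAlgebra
  have hal' : algebraMap k (AlgebraicClosure (RatFunc M)) =
      (algebraMap ℂ (AlgebraicClosure (RatFunc M))).comp σ' := by
    ext c
    rw [IsScalarTower.algebraMap_apply k (RatFunc M) (AlgebraicClosure (RatFunc M)),
      IsScalarTower.algebraMap_apply k M (RatFunc M), RingHom.comp_apply,
      IsScalarTower.algebraMap_apply ℂ (RatFunc M) (AlgebraicClosure (RatFunc M)),
      IsScalarTower.algebraMap_apply ℂ M (RatFunc M)]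
    rfl
  have hae : ∀ F : MvPolynomial (Fin (n + 1)) k,
      (MvPolynomial.aeval y' F = 0 ↔
        MvPolynomial.eval₂ ((algebraMap ℂ K').comp σ') (Num x' α') F = 0) := by
    intro F
    have h1 : MvPolynomial.aeval y' F = MvPolynomial.aeval y' (MvPolynomial.map σ' F) := by
      rw [MvPolynomial.aeval_def, MvPolynomial.aeval_def, MvPolynomial.eval₂_map, hal']
    rw [h1, hrel, MvPolynomial.aeval_def, MvPolynomial.eval₂_map]
  refine ⟨M, l1, iM, θ', y', hθd, hyθ, hyL, fun G => ⟨fun h1 => ?_, fun hG => ?_⟩, w, hw⟩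
  · by_contra h2
    exact hnz G h2 ((hae G).1 h1)
  · exact (hae G).2 (hzero G hG)

/-- **One closed set for all algebroid curves.** -/
theorem strong_bd_curvesA {k : Type} [Field k] [Countable k] {n : ℕ}
    (I : Ideal (MvPolynomial (Fin (n + 1)) k)) (hprime : I.IsPrime) (d : ℕ)
    (hnu : ¬ CoveredA I d) (s r e : ℕ) :
    ∃ G : MvPolynomial (Fin (n + 1)) k, G ∉ I ∧
      ∀ (σ : k →+* ℂ) (Ω : Set ℂ), IsOpen Ω → IsPreconnected Ω →
        ∀ (x : ℂ → Jx n d → ℂ) (α : ℂ → ℂ), DFam Ω s r e x → AnalyticOnNhd ℂ α Ω →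
        (∀ z ∈ Ω, (Pol (x z)).eval (α z) = 0) →
        (∀ z ∈ Ω, ∀ F ∈ I, MvPolynomial.eval₂ σ (Num (x z) (α z)) F = 0) →
        (∃ z ∈ Ω, ∃ w ∈ Ω, Num (x z) (α z) ≠ Num (x w) (α w)) →
          ∀ z ∈ Ω, MvPolynomial.eval₂ σ (Num (x z) (α z)) G = 0 := by
  obtain ⟨G, hG2, hG3⟩ := strong_bd_diffA I hprime d hnu s r e
  refine ⟨G, hG2, ?_⟩
  intro σ Ω hΩ hΩc x α hx hα hroot hF hnc
  obtain ⟨K, _, _, D, A, i, hA⟩ := exists_amb hΩ hΩc ⟨_, hnc.choose_spec.1⟩
  have hC : Cst D := hA.con
  have hxa := fun q => hx.an hΩ q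
  let xH : Jx n d → Hol Ω := fun q => toHol _ (hxa q)
  let aH : Hol Ω := toHol α hα
  have hxz : ∀ z : Ω, (fun q => (evz z : Hol Ω →+* ℂ) (xH q)) = x z := by
    intro z
    funext q
    exact evz_toHol _ _ _
  have haz : ∀ z : Ω, (evz z : Hol Ω →+* ℂ) aH = α z := fun z => evz_toHol _ _ _
  have hnz : ∀ (z : Ω) u, evz z (Num xH aH u) = Num (x z) (α z) u := by
    intro z u
    have h1 := num_map (evz z : Hol Ω →+* ℂ) xH aH u
    rw [hxz, haz] at h1
    exact h1.symm
  have hna : ∀ u, AnalyticOnNhd ℂ (fun z => Num (x z) (α z) u) Ω := by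
    intro u
    unfold Pool.Agent.Q1.BD.Num
    intro z hz
    exact Finset.analyticAt_fun_sum _ fun l _ => (hxa _ z hz).mul ((hα z hz).pow _)
  have hnt : ∀ u, toHol _ (hna u) = Num xH aH u := by
    intro u
    apply hol_ext
    intro z
    rw [evz_toHol, hnz]
  have hni : ∀ u, Num (fun q => i (xH q)) (i aH) u = i (toHol _ (hna u)) := by
    intro u
    rw [hnt]
    exact num_map (i : Hol Ω →+* K) xH aH u
  have hni' : Num (fun q => i (xH q)) (i aH) = fun u => i (toHol _ (hna u)) := funext hni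
  have hpz : (Pol fun q => i (xH q)).eval (i aH) = 0 := by
    have h1 := eval_pol_map (i : Hol Ω →+* K) xH aH
    have h2 : (Pol xH).eval aH = 0 := by
      apply hol_ext
      intro z
      have h3 := eval_pol_map (evz z : Hol Ω →+* ℂ) xH aH
      rw [hxz, haz] at h3
      rw [map_zero]
      exact h3.symm.trans (hroot z z.2)
    rw [h2, map_zero] at h1
    exact h1
  have hcr : ∃ u, D (Num (fun q => i (xH q)) (i aH) u) ≠ 0 := by
    by_contra hno
    push Not at hno
    obtain ⟨z, hz, w, hw, hzw⟩ := hnc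
    apply hzw
    funext u
    have h1 := hno u
    rw [hni u] at h1
    obtain ⟨c, hc⟩ := hC _ h1
    have h2 : toHol _ (hna u) = algebraMap ℂ (Hol Ω) c := by
      apply hA.inj
      rw [hc, AlgHom.commutes]
    have h3 : ∀ z' : Ω, Num (x z') (α z') u = c := by
      intro z'
      have h4 := congrArg (evz z') h2
      rw [evz_toHol, AlgHom.commutes] at h4
      exact h4
    rw [h3 ⟨z, hz⟩, h3 ⟨w, hw⟩]
  have h1 := hG3 σ K D hC (fun q => i (xH q)) (i aH) (hx.toF hΩ hA) hpz (fun F hFF => ?_) (by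
    exact hcr)
  · rw [← MvPolynomial.eval₂_map, hni'] at h1
    have h2 := (vanish_iff hA.inj (f := fun z => Num (x z) (α z)) hna
      (MvPolynomial.map σ G)).1 h1
    intro z hz
    have h3 := h2 z hz
    rwa [MvPolynomial.eval_map] at h3
  · rw [← MvPolynomial.eval₂_map, hni']
    refine (vanish_iff hA.inj (f := fun z => Num (x z) (α z)) hna (MvPolynomial.map σ F)).2 ?_
    intro z hz
    rw [MvPolynomial.eval_map]
    exact hF z hz F hFF

end Pool.Agent.Q1.BA
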