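import Pool.Agent.Q1.BA.TransA

/-!
Families of affine curves with a finite map of degree at most `d` to the punctured line through
integral points.
-/

set_option autoImplicit false

namespace Pool.Agent.Q1.BA

open Polynomial IntermediateField Pool.Agent.Y377.IL Pool.Agent.Q1.BD

/-- `z` is integral over the ring of Laurent polynomials with coefficients in `M` -/
def LauInt (M : Type) [Field M] (z : AlgebraicClosure (RatFunc M)) : Prop :=
  ∃ P : (RatFunc M)[X], P.Monic ∧ (∀ i, ∃ (q : M[X]) (k : ℕ),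
    P.coeff i * RatFunc.X ^ k = algebraMap M[X] (RatFunc M) q) ∧ aeval z P = 0

/-- an integral point over an extension of degree at most `d` of a ring of Laurent polynomials -/
structure GonPtA (d : ℕ) {m : ℕ} (A : Type) [Field A] [Algebra ℂ A] (y : Fin m → A) : Prop where
  ex : ∃ (M : Type) (_ : Field M) (_ : Algebra ℂ M) (y' : Fin m → AlgebraicClosure (RatFunc M))
    (θ' : AlgebraicClosure (RatFunc M)),
    IsIntegral (RatFunc M) θ' ∧ (minpoly (RatFunc M) θ').natDegree ≤ d ∧
    (∀ u, y' u ∈ (RatFunc M)⟮θ'⟯) ∧ (∀ u, LauInt M (y' u)) ∧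
    (∀ G : MvPolynomial (Fin m) ℂ, MvPolynomial.aeval y' G = 0 ↔ MvPolynomial.aeval y G = 0) ∧
    ∃ u, ¬ IsAlgebraic M (y' u)

/-- the coefficients of the minimal polynomials of integral elements are in a normal ring -/
theorem coeff_normal {K : Type} [Field K] [Algebra ℂ K] {R : Subalgebra ℂ K}
    (hnor : ∀ b ∈ frac R, IsIntegral R b → b ∈ R) {E : Type} [Field E] [Algebra ℂ E] [Algebra K E]
    [IsScalarTower ℂ K E] {z : E} {P : K[X]} (hP : P.Monic) (hPR : ∀ i, P.coeff i ∈ R)
    (hPz : aeval z P = 0) : IsIntegral (frac R) z ∧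
      ∀ i, ((minpoly (frac R) z).coeff i : K) ∈ R := by
  obtain ⟨P1, hP1⟩ : ∃ P1 : R[X], P1.map (algebraMap R K) = P := by
    have h1 : P ∈ lifts (algebraMap R K) := by
      rw [lifts_iff_coeff_lifts]
      intro i
      exact ⟨⟨_, hPR i⟩, rfl⟩
    exact h1
  have hP1m : P1.Monic := by
    rw [← hP1] at hP
    exact monic_of_injective (Subtype.val_injective) hP
  let ι : R →+* frac R := {
    toFun := fun x => ⟨x, le_frac R x.2⟩
    map_one' := rfl
    map_mul' := fun _ _ => rfl
    map_zero' := rfl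
    map_add' := fun _ _ => rfl }
  let P2 : (frac R)[X] := P1.map ι
  have hP2 : P2.map (algebraMap (frac R) K) = P := by
    rw [← hP1]
    change (P1.map ι).map _ = _
    rw [Polynomial.map_map]
    rfl
  have hz2 : aeval z P2 = 0 := by
    rw [← hPz, ← hP2, aeval_map_algebraMap]
  have hint : IsIntegral (frac R) z := ⟨P2, hP1m.map _, hz2⟩
  refine ⟨hint, fun i => ?_⟩
  have hdvd : (minpoly (frac R) z).map (algebraMap (frac R) K) ∣ P1.map (algebraMap R K) := by
    rw [hP1, ← hP2]
    exact Polynomial.map_dvd _ (minpoly.dvd _ _ hz2)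
  have h1 := integralClosure.mem_lifts_of_monic_of_dvd_map K hP1m
    ((minpoly.monic hint).map (algebraMap (frac R) K)) hdvd
  rw [lifts_iff_coeff_lifts] at h1
  obtain ⟨c, hc⟩ := h1 i
  rw [coeff_map] at hc
  refine hnor _ ((minpoly (frac R) z).coeff i).2 ?_
  have h2 : (((minpoly (frac R) z).coeff i : frac R) : K) = (c : K) := hc.symm
  rw [h2]
  exact c.2

/-- **Integral points over finite extensions.** -/
theorem ptA {K : Type} [Field K] [Algebra ℂ K] {R : Subalgebra ℂ K} (hR : Eng R)
    {E : Type} [Field E] [Algebra ℂ E] [Algebra K E] [IsScalarTower ℂ K E] {m d : ℕ}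
    (y : Fin m → E) (α : E) (hα : IsIntegral (frac R) α)
    (hd : (minpoly (frac R) α).natDegree ≤ d) (hy : ∀ u, y u ∈ (frac R)⟮α⟯)
    (hne : ∃ u, ¬ IsAlgebraic ℂ (y u)) (hnor : ∀ b ∈ frac R, IsIntegral R b → b ∈ R)
    (hyint : ∀ u, ∃ P : K[X], P.Monic ∧ (∀ i, P.coeff i ∈ R) ∧ aeval (y u) P = 0) :
    GonPtA d E y := by
  classical
  have hcz : CharZero K := charZero_of_injective_algebraMap (algebraMap ℂ K).injective
  have hfin : FiniteDimensional (frac R) (frac R)⟮α⟯ := adjoin.finiteDimensional hα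
  have hyi : ∀ u, IsIntegral (frac R) (y u) := by
    intro u
    have h1 : IsIntegral (frac R) (⟨y u, hy u⟩ : (frac R)⟮α⟯) := IsIntegral.of_finite _ _
    exact h1.map ((frac R)⟮α⟯).val
  obtain ⟨w, hw⟩ := exists_nat_prim (F := frac R) y fun u => (hyi u).isAlgebraic
  set θ := ∑ u, (w u : E) * y u with hθ
  have hθα : θ ∈ (frac R)⟮α⟯ :=
    sum_mem fun u _ => mul_mem (_root_.natCast_mem _ (w u)) (hy u)
  have hθi : IsIntegral (frac R) θ := by
    have h1 : IsIntegral (frac R) (⟨θ, hθα⟩ : (frac R)⟮α⟯) := IsIntegral.of_finite _ _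
    exact h1.map ((frac R)⟮α⟯).val
  have hθd : (minpoly (frac R) θ).natDegree ≤ d := by
    rw [← adjoin.finrank hθi]
    rw [← adjoin.finrank hα] at hd
    refine le_trans ?_ hd
    exact IntermediateField.finrank_le_of_le_right (adjoin_simple_le_iff.2 hθα)
  let pb := adjoin.powerBasis hθi
  have hB : ∀ u, ∃ f : (frac R)[X], f.degree < (minpoly (frac R) θ).degree ∧
      aeval θ f = y u := by
    intro u
    obtain ⟨f, hf1, hf2⟩ := pb.exists_eq_aeval ⟨y u, hw u⟩
    refine ⟨f, ?_, ?_⟩
    · have h1 : pb.dim = (minpoly (frac R) θ).natDegree := adjoin.powerBasis_dim hθi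
      rw [h1] at hf1
      exact degree_lt_degree hf1
    · have h2 := congrArg (fun x : (frac R)⟮θ⟯ => (x : E)) hf2
      have h3 : ((aeval pb.gen f : (frac R)⟮θ⟯) : E) = aeval θ f := by
        have h4 := aeval_algebraMap_apply E pb.gen f
        have h5 : algebraMap (frac R)⟮θ⟯ E pb.gen = θ := by
          rw [adjoin.powerBasis_gen, AdjoinSimple.algebraMap_gen]
        rw [h5] at h4
        exact h4.symm
      rw [← h3]
      exact h2.symm
  choose B hBd hBe using hB
  let N := (minpoly (frac R) θ).natDegree + 1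
  let t : Finset K := (Finset.range N).image (fun i => ((minpoly (frac R) θ).coeff i : K)) ∪
    Finset.univ.biUnion fun u => (Finset.range N).image fun i => ((B u).coeff i : K)
  have hm0 : minpoly (frac R) θ ≠ 0 := minpoly.ne_zero hθi
  have hBN : ∀ u i, N ≤ i → (B u).coeff i = 0 := by
    intro u i hi
    refine coeff_eq_zero_of_degree_lt ((hBd u).trans_le ?_)
    rw [degree_eq_natDegree hm0]
    exact_mod_cast (by omega : (minpoly (frac R) θ).natDegree ≤ i)
  have hmN : ∀ i, N ≤ i → (minpoly (frac R) θ).coeff i = 0 := by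
    intro i hi
    exact coeff_eq_zero_of_natDegree_lt (by omega)
  have htm : ∀ i, ((minpoly (frac R) θ).coeff i : K) ∈ t ∨
      (minpoly (frac R) θ).coeff i = 0 := by
    intro i
    by_cases hi : i < N
    · left
      exact Finset.mem_union_left _ (Finset.mem_image.2 ⟨i, Finset.mem_range.2 hi, rfl⟩)
    · right
      exact hmN i (not_lt.1 hi)
  have htB : ∀ u i, ((B u).coeff i : K) ∈ t ∨ (B u).coeff i = 0 := by
    intro u i
    by_cases hi : i < N
    · left
      exact Finset.mem_union_right _ (Finset.mem_biUnion.2 ⟨u, Finset.mem_univ u,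
        Finset.mem_image.2 ⟨i, Finset.mem_range.2 hi, rfl⟩⟩)
    · right
      exact hBN u i (not_lt.1 hi)
  have htF : ∀ x ∈ t, x ∈ frac R := by
    intro x hx
    rcases Finset.mem_union.1 hx with h | h
    · obtain ⟨i, -, rfl⟩ := Finset.mem_image.1 h
      exact ((minpoly (frac R) θ).coeff i).2
    · obtain ⟨u, -, h⟩ := Finset.mem_biUnion.1 h
      obtain ⟨i, -, rfl⟩ := Finset.mem_image.1 h
      exact ((B u).coeff i).2
  -- not all coefficients are constant
  have hnc : ∃ x ∈ t, ¬ IsAlgebraic (⊥ : Subalgebra ℂ K) x := by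
    by_contra hcon
    push Not at hcon
    have hcm : ∀ i, ∃ c : ℂ, (minpoly (frac R) θ).coeff i = algebraMap ℂ (frac R) c := by
      intro i
      rcases htm i with h | h
      · obtain ⟨c, hc⟩ := const_of_alg (hcon _ h)
        exact ⟨c, Subtype.ext hc⟩
      · exact ⟨0, by rw [h, map_zero]⟩
    have hcB : ∀ u i, ∃ c : ℂ, (B u).coeff i = algebraMap ℂ (frac R) c := by
      intro u i
      rcases htB u i with h | h
      · obtain ⟨c, hc⟩ := const_of_alg (hcon _ h)
        exact ⟨c, Subtype.ext hc⟩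
      · exact ⟨0, by rw [h, map_zero]⟩
    have h1 : IsAlgebraic ℂ θ := by
      have h2 : minpoly (frac R) θ ∈ lifts (algebraMap ℂ (frac R)) := by
        rw [lifts_iff_coeff_lifts]
        intro i
        obtain ⟨c, hc⟩ := hcm i
        exact ⟨c, hc.symm⟩
      obtain ⟨q, hq⟩ := h2
      refine ⟨q, ?_, ?_⟩
      · rintro rfl
        apply hm0
        rw [← hq]
        exact Polynomial.map_zero _
      · have h3 := minpoly.aeval (frac R) θ
        rw [← hq] at h3
        change aeval θ (q.map (algebraMap ℂ (frac R))) = 0 at h3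
        rwa [aeval_map_algebraMap] at h3
    obtain ⟨u, hu⟩ := hne
    apply hu
    have h2 : B u ∈ lifts (algebraMap ℂ (frac R)) := by
      rw [lifts_iff_coeff_lifts]
      intro i
      obtain ⟨c, hc⟩ := hcB u i
      exact ⟨c, hc.symm⟩
    obtain ⟨q, hq⟩ := h2
    have h3 : y u = aeval θ q := by
      rw [← hBe u, ← hq]
      change aeval θ (q.map (algebraMap ℂ (frac R))) = _
      rw [aeval_map_algebraMap]
    rw [h3]
    have h4 : IsIntegral ℂ (aeval θ q) := by
      have h5 : aeval θ q ∈ ℂ⟮θ⟯ := algebra_adjoin_le_adjoin ℂ {θ} (aeval_mem_adjoin_singleton _ _)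
      have h6 : FiniteDimensional ℂ ℂ⟮θ⟯ := adjoin.finiteDimensional h1.isIntegral
      have h7 : IsIntegral ℂ (⟨aeval θ q, h5⟩ : ℂ⟮θ⟯) := IsIntegral.of_finite _ _
      exact h7.map (ℂ⟮θ⟯).val
    exact h4.isAlgebraic
  choose PP hPm hPc hPr using hyint
  have hcn := fun u => coeff_normal hnor (hPm u) (hPc u) (hPr u)
  let t1 : Finset K := Finset.univ.biUnion fun u =>
    (Finset.range ((minpoly (frac R) (y u)).natDegree + 1)).image
      fun i => ((minpoly (frac R) (y u)).coeff i : K)
  have ht1 : ∀ x ∈ t1, x ∈ R := by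
    intro x hx
    obtain ⟨u, -, h⟩ := Finset.mem_biUnion.1 hx
    obtain ⟨i, -, rfl⟩ := Finset.mem_image.1 h
    exact (hcn u).2 i
  have htq : ∀ u i, ((minpoly (frac R) (y u)).coeff i : K) ∈ t1 ∨
      (minpoly (frac R) (y u)).coeff i = 0 := by
    intro u i
    by_cases hi : i < (minpoly (frac R) (y u)).natDegree + 1
    · left
      exact Finset.mem_biUnion.2 ⟨u, Finset.mem_univ u,
        Finset.mem_image.2 ⟨i, Finset.mem_range.2 hi, rfl⟩⟩
    · right
      exact coeff_eq_zero_of_natDegree_lt (by omega)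
  obtain ⟨S0, M, i1, i2, φ, hS0, ht0', ht0R, ⟨z, hz', hzc⟩, hφS⟩ := hR (t ∪ t1) (by
      intro x hx
      rcases Finset.mem_union.1 hx with h | h
      · exact htF x h
      · exact le_frac R (ht1 x h)) (by
      obtain ⟨x, hx, hx'⟩ := hnc
      exact ⟨x, Finset.mem_union_left _ hx, hx'⟩)
  have ht0 : ∀ x ∈ t, x ∈ frac S0 := fun x hx => ht0' x (Finset.mem_union_left _ hx)
  have ht1' : ∀ x ∈ t1, x ∈ S0 := fun x hx => ht0R x (Finset.mem_union_right _ hx) (ht1 x hx)
  have hle : frac S0 ≤ frac R := fun x hx => frac_mono hS0 hx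
  obtain ⟨p, hp⟩ := exists_lift hle (minpoly (frac R) θ) fun i => by
    rcases htm i with h | h
    · exact ht0 _ h
    · rw [h]
      exact zero_mem _
  have hBl : ∀ u, ∃ g : (frac S0)[X], g.map (inclusion hle : frac S0 →+* frac R) = B u := fun u =>
    exists_lift hle (B u) fun i => by
      rcases htB u i with h | h
      · exact ht0 _ h
      · rw [h]
        exact zero_mem _
  choose B0 hB0 using hBl
  have hql : ∀ u, ∃ g : (frac S0)[X], g.map (inclusion hle : frac S0 →+* frac R) =
      minpoly (frac R) (y u) := fun u =>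
    exists_lift hle (minpoly (frac R) (y u)) fun i => by
      rcases htq u i with h | h
      · exact le_frac S0 (ht1' _ h)
      · rw [h]
        exact zero_mem _
  choose q0 hq0 using hql
  have hq0S : ∀ u i, ((q0 u).coeff i : K) ∈ S0 := by
    intro u i
    have h7 : ((q0 u).coeff i : K) = ((minpoly (frac R) (y u)).coeff i : K) := by
      rw [← hq0 u, coeff_map]
      rfl
    rw [h7]
    rcases htq u i with h | h
    · exact ht1' _ h
    · rw [h]
      exact S0.zero_mem
  let iA : Algebra (frac S0) (frac R) := (inclusion hle : frac S0 →+* frac R).toAlgebra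
  have iT : IsScalarTower (frac S0) (frac R) E := IsScalarTower.of_algebraMap_eq fun x => rfl
  have hpm : p.Monic := by
    have h1 := minpoly.monic hθi
    rw [← hp] at h1
    exact monic_of_injective (inclusion hle : frac S0 →+* frac R).injective h1
  have hae : ∀ g : (frac S0)[X], aeval θ g =
      aeval θ (g.map (inclusion hle : frac S0 →+* frac R)) := fun g =>
    (aeval_map_algebraMap (frac R) θ g).symm
  have hc0 : CharZero (frac S0) := charZero_of_injective_algebraMap
    (algebraMap ℂ (frac S0)).injective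
  have hdm : ∀ g : (frac S0)[X], (g.map (inclusion hle : frac S0 →+* frac R)).degree = g.degree :=
    fun g => degree_map _ _
  have hq0m : ∀ u, (q0 u).Monic := by
    intro u
    have h1 := minpoly.monic (hyi u)
    rw [← hq0 u] at h1
    exact monic_of_injective (inclusion hle : frac S0 →+* frac R).injective h1
  have hex : ∃ Ψ : (frac S0)⟮θ⟯ →+* AlgebraicClosure (RatFunc M),
      (∀ a : frac S0, Ψ (algebraMap (frac S0) (frac S0)⟮θ⟯ a) =
        algebraMap (RatFunc M) (AlgebraicClosure (RatFunc M)) ((φ : frac S0 →+* RatFunc M) a)) ∧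
      (∃ θ' : AlgebraicClosure (RatFunc M), IsIntegral (RatFunc M) θ' ∧
        (minpoly (RatFunc M) θ').natDegree ≤ p.natDegree ∧
        ∀ x : (frac S0)⟮θ⟯, Ψ x ∈ (RatFunc M)⟮θ'⟯) ∧
      (∀ u, y u ∈ (frac S0)⟮θ⟯) ∧
      ∃ u, ∀ h : y u ∈ (frac S0)⟮θ⟯, ¬ IsAlgebraic M (Ψ ⟨y u, h⟩) := by
    rcases Finset.mem_union.1 hz' with hz | hz
    · exact transport (F0 := frac S0) (F := frac R)
        (φ : frac S0 →+* RatFunc M) y w hθ p hpm hp hθi B0
        (fun u => by rw [hae, hB0, hBe]) (fun u => by rw [← hdm, ← hdm, hB0, hp]; exact hBd u) (by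
          rcases Finset.mem_union.1 hz with h | h
          · obtain ⟨i, -, hi⟩ := Finset.mem_image.1 h
            left
            refine ⟨i, fun c hc => hzc c ?_⟩
            have h7 : p.coeff i = z := by
              apply Subtype.ext
              rw [← hi, ← hp, coeff_map]
              rfl
            rw [h7] at hc
            exact hc
          · obtain ⟨u, -, h⟩ := Finset.mem_biUnion.1 h
            obtain ⟨i, -, hi⟩ := Finset.mem_image.1 h
            right
            refine ⟨u, i, fun c hc => hzc c ?_⟩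
            have h7 : (B0 u).coeff i = z := by
              apply Subtype.ext
              rw [← hi, ← hB0, coeff_map]
              rfl
            rw [h7] at hc
            exact hc)
    · obtain ⟨u0, -, h⟩ := Finset.mem_biUnion.1 hz
      obtain ⟨i, -, hi⟩ := Finset.mem_image.1 h
      exact transport2 (F0 := frac S0) (F := frac R)
        (φ : frac S0 →+* RatFunc M) y p hpm hp hθi B0
        (fun u => by rw [hae, hB0, hBe]) (u0 := u0) (q0 u0) (hq0m u0) (hq0 u0) (hyi u0)
        ⟨i, fun c hc => hzc c (by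
          have h7 : (q0 u0).coeff i = z := by
            apply Subtype.ext
            rw [← hi, ← hq0, coeff_map]
            rfl
          rw [h7] at hc
          exact hc)⟩
  obtain ⟨Ψ, h1, ⟨θ', h2, h3, h4⟩, h5, u, h6⟩ := hex
  refine ⟨M, i1, i2, fun u => Ψ ⟨y u, h5 u⟩, θ', h2, ?_, fun u => h4 _, fun u => ?_, ?_, u,
    h6 (h5 u)⟩
  · refine h3.trans ?_
    have h7 : p.natDegree = (minpoly (frac R) θ).natDegree := by
      rw [← hp]
      exact (natDegree_map _).symm
    rw [h7]
    exact hθd
  · refine ⟨(q0 u).map (φ : frac S0 →+* RatFunc M), (hq0m u).map _, fun i => ?_, ?_⟩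
    · rw [coeff_map]
      obtain ⟨q, k, hqk⟩ := hφS ((q0 u).coeff i) (hq0S u i)
      exact ⟨q, k, hqk⟩
    · have h8 : aeval (y u) (q0 u) = 0 := by
        have e1 : aeval (y u) (q0 u) =
            aeval (y u) ((q0 u).map (inclusion hle : frac S0 →+* frac R)) :=
          (aeval_map_algebraMap (frac R) (y u) (q0 u)).symm
        rw [e1, hq0]
        exact minpoly.aeval _ _
      have h9 : aeval (⟨y u, h5 u⟩ : (frac S0)⟮θ⟯) (q0 u) = 0 := by
        apply Subtype.ext
        have h10 := aeval_algebraMap_apply E (⟨y u, h5 u⟩ : (frac S0)⟮θ⟯) (q0 u)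
        exact h10.symm.trans h8
      have h10 := congrArg Ψ h9
      rw [map_zero, aeval_def, hom_eval₂] at h10
      rw [aeval_def, eval₂_map]
      rw [← h10]
      congr 1
      ext a
      exact (h1 a).symm
  · intro G
    have h7 : (algebraMap ℂ (AlgebraicClosure (RatFunc M))) =
        Ψ.comp ((algebraMap (frac S0) (frac S0)⟮θ⟯).comp (algebraMap ℂ (frac S0))) := by
      ext c
      rw [RingHom.comp_apply, RingHom.comp_apply, h1]
      change _ = algebraMap (RatFunc M) _ (φ (algebraMap ℂ (frac S0) c))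
      rw [AlgHom.commutes, IsScalarTower.algebraMap_apply ℂ (RatFunc M)
        (AlgebraicClosure (RatFunc M))]
    have h8 : MvPolynomial.aeval (fun u => Ψ ⟨y u, h5 u⟩) G =
        Ψ (MvPolynomial.eval₂ ((algebraMap (frac S0) (frac S0)⟮θ⟯).comp
          (algebraMap ℂ (frac S0))) (fun u => (⟨y u, h5 u⟩ : (frac S0)⟮θ⟯)) G) := by
      rw [MvPolynomial.aeval_def, h7]
      exact (MvPolynomial.eval₂_comp_left Ψ _ _ G).symm
    rw [h8, map_eq_zero_iff Ψ Ψ.injective]
    have h9 : ((MvPolynomial.eval₂ ((algebraMap (frac S0) (frac S0)⟮θ⟯).comp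
          (algebraMap ℂ (frac S0))) (fun u => (⟨y u, h5 u⟩ : (frac S0)⟮θ⟯)) G : (frac S0)⟮θ⟯) : E) =
        MvPolynomial.aeval y G := by
      have h10 := MvPolynomial.eval₂_comp_left (algebraMap (frac S0)⟮θ⟯ E)
        ((algebraMap (frac S0) (frac S0)⟮θ⟯).comp (algebraMap ℂ (frac S0)))
        (fun u => (⟨y u, h5 u⟩ : (frac S0)⟮θ⟯)) G
      refine Eq.trans h10 ?_
      rw [MvPolynomial.aeval_def]
      congr 1
      ext c
      exact (IsScalarTower.algebraMap_apply ℂ K E c).symm
    rw [← h9]
    exact ⟨fun h => by rw [h]; rfl, fun h => Subtype.ext h⟩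

end Pool.Agent.Q1.BA
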