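import Pool.Agent.Y377.IR.Asm
import Mathlib

/-!
Simple finitely generated rings are normal.
-/

set_option autoImplicit false

namespace Pool.Agent.Q1.BA

open Polynomial Pool.Agent.Y377.IL Pool.Agent.Y377.EL Pool.Agent.Y377.IR

/-- the conductor of a finitely generated domain -/
theorem cond (R : Type) [CommRing R] [IsDomain R] [Algebra ℂ R] [Algebra.FiniteType ℂ R] :
    ∃ r : R, r ≠ 0 ∧ ∀ b : FractionRing R, IsIntegral R b →
      ∃ a : R, algebraMap R (FractionRing R) a = algebraMap R (FractionRing R) r * b := by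
  classical
  obtain ⟨s, g, hg, hfin⟩ := exists_finite_inj_algHom_of_fg ℂ R
  let P := MvPolynomial (Fin s) ℂ
  let L := FractionRing R
  let K := FractionRing P
  let iPR : Algebra P R := (g : P →+* R).toAlgebra
  have hPR : Function.Injective (algebraMap P R) := hg
  have hfinPR : Module.Finite P R := hfin
  have hT1 : IsScalarTower P R L := inferInstance
  have hPL : Function.Injective (algebraMap P L) := by
    rw [IsScalarTower.algebraMap_eq P R L, RingHom.coe_comp]
    exact (IsFractionRing.injective R L).comp hPR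
  have hfs : FaithfulSMul P L := (faithfulSMul_iff_algebraMap_injective P L).2 hPL
  let iKL : Algebra K L := FractionRing.liftAlgebra P L
  have hT2 : IsScalarTower P K L := FractionRing.isScalarTower_liftAlgebra P L
  have hintPR : Algebra.IsIntegral P R := Algebra.IsIntegral.of_finite P R
  have hchar : CharZero K := by
    have : CharZero P := inferInstance
    exact charZero_of_injective_algebraMap (IsFractionRing.injective P K)
  -- finite dimension
  obtain ⟨S, hS⟩ := (inferInstance : Module.Finite P R).fg_top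
  have hfd : FiniteDimensional K L := by
    let T : Subalgebra K L := Algebra.adjoin K ((fun x => algebraMap R L x) '' (S : Set R))
    have hTint : ∀ x ∈ (fun x => algebraMap R L x) '' (S : Set R), IsIntegral K x := by
      rintro _ ⟨x, -, rfl⟩
      have h1 : IsIntegral P (algebraMap R L x) :=
        (Algebra.IsIntegral.isIntegral (R := P) x).map (IsScalarTower.toAlgHom P R L)
      exact h1.tower_top
    have hTfg : (Subalgebra.toSubmodule T).FG :=
      fg_adjoin_of_finite (S.finite_toSet.image _) hTint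
    have hRT : ∀ x : R, algebraMap R L x ∈ T := by
      intro x
      have hx : x ∈ Submodule.span P (S : Set R) := by
        rw [hS]
        exact Submodule.mem_top
      induction hx using Submodule.span_induction with
      | mem y hy => exact Algebra.subset_adjoin ⟨y, hy, rfl⟩
      | zero =>
        rw [map_zero]
        exact T.zero_mem
      | add y z _ _ hy hz =>
        rw [map_add]
        exact T.add_mem hy hz
      | smul c y _ hy =>
        rw [Algebra.smul_def, map_mul, ← IsScalarTower.algebraMap_apply,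
          IsScalarTower.algebraMap_apply P K L]
        exact T.mul_mem (T.algebraMap_mem _) hy
    have hTalg : ∀ x ∈ T, x⁻¹ ∈ T := by
      intro x hx
      by_cases hx0 : x = 0
      · rw [hx0, inv_zero]
        exact T.zero_mem
      have hTi : ∀ y : T, IsIntegral K (y : L) := fun y =>
        IsIntegral.of_mem_of_fg T hTfg y y.2
      have h1 := hTi ⟨x, hx⟩
      have h2 : x⁻¹ ∈ Algebra.adjoin K {x} := by
        exact h1.inv_mem_adjoin
      exact (Algebra.adjoin_le (Set.singleton_subset_iff.2 hx)) h2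
    have hTtop : T = ⊤ := by
      rw [eq_top_iff]
      intro z _
      obtain ⟨a, b, hb, rfl⟩ := IsFractionRing.div_surjective (A := R) z
      rw [div_eq_mul_inv]
      exact T.mul_mem (hRT a) (hTalg _ (hRT b))
    refine ⟨?_⟩
    rw [← Algebra.top_toSubmodule, ← hTtop]
    exact hTfg
  have hsep : Algebra.IsSeparable K L := inferInstance
  have hclosed : IsIntegrallyClosed P := inferInstance
  have hno : IsNoetherianRing P := inferInstance
  have hfinC : Module.Finite P (integralClosure P L) :=
    IsIntegralClosure.finite P K L (integralClosure P L)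
  obtain ⟨T, hT⟩ := hfinC.fg_top
  obtain ⟨⟨r, hr⟩, hrT⟩ := IsLocalization.exist_integer_multiples_of_finset
    (nonZeroDivisors R) (T.image fun x : integralClosure P L => (x : L))
  refine ⟨r, nonZeroDivisors.ne_zero hr, fun b hb => ?_⟩
  have hbP : IsIntegral P b := isIntegral_trans b hb
  have hx : (⟨b, hbP⟩ : integralClosure P L) ∈ Submodule.span P (T : Set (integralClosure P L)) := by
    rw [hT]
    exact Submodule.mem_top
  have key : ∀ x : integralClosure P L, x ∈ Submodule.span P (T : Set (integralClosure P L)) →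
      ∃ a : R, algebraMap R L a = algebraMap R L r * (x : L) := by
    intro x hx
    induction hx using Submodule.span_induction with
    | mem y hy =>
      obtain ⟨a, ha⟩ := hrT (y : L) (Finset.mem_image_of_mem _ hy)
      exact ⟨a, ha.trans (Algebra.smul_def _ _)⟩
    | zero => exact ⟨0, by simp⟩
    | add y z _ _ hy hz =>
      obtain ⟨a, ha⟩ := hy
      obtain ⟨c, hc⟩ := hz
      refine ⟨a + c, ?_⟩
      rw [map_add, ha, hc]
      push_cast
      ring
    | smul c y _ hy =>
      obtain ⟨a, ha⟩ := hy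
      refine ⟨algebraMap P R c * a, ?_⟩
      rw [map_mul, ha, ← IsScalarTower.algebraMap_apply]
      change _ = _ * (c • (y : L))
      rw [Algebra.smul_def]
      ring
  exact key _ hx

section

variable {K : Type} [Field K] [Algebra ℂ K]

/-- the conductor in the field -/
theorem cond' (R : Subalgebra ℂ K) (hfg : R.FG) :
    ∃ r ∈ R, r ≠ 0 ∧ ∀ b ∈ frac R, IsIntegral R b → r * b ∈ R := by
  have hft : Algebra.FiniteType ℂ R := R.fg_iff_finiteType.1 hfg
  obtain ⟨r, hr0, hr⟩ := cond R
  let j : FractionRing R →ₐ[R] K := IsFractionRing.liftAlgHom (g := Algebra.ofId R K)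
    (Subtype.val_injective)
  have hj : Function.Injective j := (j : FractionRing R →+* K).injective
  refine ⟨r, r.2, fun h => hr0 (Subtype.ext h), ?_⟩
  rintro b ⟨s, hs, hs0, hsb⟩ hb
  let s' : R := ⟨s, hs⟩
  let c' : R := ⟨s * b, hsb⟩
  let b' : FractionRing R := algebraMap R _ c' / algebraMap R _ s'
  have hjR : ∀ x : R, j (algebraMap R _ x) = (x : K) := fun x => j.commutes x
  have hjb : j b' = b := by
    change j (algebraMap R _ c' / algebraMap R _ s') = b
    rw [map_div₀, hjR, hjR]
    change s * b / s = b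
    field_simp
  have hb' : IsIntegral R b' := by
    rw [← hjb] at hb
    exact (isIntegral_algHom_iff j hj).1 hb
  obtain ⟨a, ha⟩ := hr b' hb'
  have h1 := congrArg j ha
  rw [map_mul, hjR, hjR, hjb] at h1
  rw [← h1]
  exact a.2

/-- the conductor as an ideal -/
noncomputable def conI (R : Subalgebra ℂ K) : Submodule R K where
  carrier := {x | x ∈ R ∧ ∀ b ∈ frac R, IsIntegral R b → x * b ∈ R}
  add_mem' := by
    rintro x y ⟨hx, hx'⟩ ⟨hy, hy'⟩
    refine ⟨R.add_mem hx hy, fun b hb hbi => ?_⟩
    rw [add_mul]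
    exact R.add_mem (hx' b hb hbi) (hy' b hb hbi)
  zero_mem' := ⟨R.zero_mem, fun b _ _ => by
    rw [zero_mul]
    exact R.zero_mem⟩
  smul_mem' := by
    rintro c x ⟨hx, hx'⟩
    have h1 : c • x = (c : K) * x := rfl
    rw [h1]
    refine ⟨R.mul_mem c.2 hx, fun b hb hbi => ?_⟩
    rw [mul_assoc]
    exact R.mul_mem c.2 (hx' b hb hbi)

theorem normal_of_one {R : Subalgebra ℂ K} (h : (1 : K) ∈ conI R) :
    ∀ b ∈ frac R, IsIntegral R b → b ∈ R := by
  intro b hb hbi
  have h1 := h.2 b hb hbi
  rwa [one_mul] at h1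

/-- **Simple rings with a group action are normal.** -/
theorem normal_G {Γ : Subgroup (K ≃ₐ[ℂ] K)} {R : Subalgebra ℂ K} (hst : StabG Γ R)
    (hs : GSimple Γ R) (hfg : R.FG) : ∀ b ∈ frac R, IsIntegral R b → b ∈ R := by
  apply normal_of_one
  obtain ⟨r, hr, hr0, hrb⟩ := cond' R hfg
  refine hs (conI R) (fun x hx => hx.1) (fun γ hγ x hx => ⟨hst γ hγ x hx.1, fun b hb hbi => ?_⟩)
    ⟨r, ⟨hr, hrb⟩, hr0⟩
  have hγ' : γ⁻¹ ∈ Γ := Γ.inv_mem hγ
  have hinv : ∀ y : K, γ (γ⁻¹ y) = y := fun y => γ.apply_symm_apply y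
  have hb1 : γ⁻¹ b ∈ frac R := by
    obtain ⟨s, hs1, hs0, hsb⟩ := hb
    refine ⟨γ⁻¹ s, hst _ hγ' s hs1, ?_, ?_⟩
    · rw [Ne, map_eq_zero_iff _ (γ⁻¹ : K ≃ₐ[ℂ] K).injective]
      exact hs0
    · rw [← map_mul]
      exact hst _ hγ' _ hsb
  have hb2 : IsIntegral R (γ⁻¹ b) := by
    let φ : R →+* R := {
      toFun := fun x => ⟨γ⁻¹ x, hst _ hγ' x x.2⟩
      map_one' := Subtype.ext (map_one (γ⁻¹ : K ≃ₐ[ℂ] K))
      map_mul' := fun x y => Subtype.ext (map_mul (γ⁻¹ : K ≃ₐ[ℂ] K) _ _)
      map_zero' := Subtype.ext (map_zero (γ⁻¹ : K ≃ₐ[ℂ] K))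
      map_add' := fun x y => Subtype.ext (map_add (γ⁻¹ : K ≃ₐ[ℂ] K) _ _) }
    exact hbi.map_of_comp_eq φ ((γ⁻¹ : K ≃ₐ[ℂ] K) : K →+* K) (by
      ext x
      rfl)
  have h1 := hst γ hγ _ (hx.2 _ hb1 hb2)
  rwa [map_mul, hinv] at h1

/-- iterated commutators with a multiplication -/
noncomputable def ad (D : Derivation ℂ K K) (b : K) : ℕ → ℕ → K → K
  | 0, m, x => D^[m] x
  | k + 1, m, x => ad D b k m (b * x) - b * ad D b k m x

theorem ad_succ (D : Derivation ℂ K K) (b : K) (m k : ℕ) : ∀ x,
    ad D b k (m + 1) x = D (ad D b k m x) + k * D b * ad D b (k - 1) m x := by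
  induction k with
  | zero =>
    intro x
    change D^[m + 1] x = D (D^[m] x) + (0 : ℕ) * D b * _
    rw [Nat.cast_zero, zero_mul, zero_mul, add_zero, Function.iterate_succ_apply']
  | succ k ih =>
    intro x
    change ad D b k (m + 1) (b * x) - b * ad D b k (m + 1) x =
      D (ad D b k m (b * x) - b * ad D b k m x) + ((k + 1 : ℕ) : K) * D b * ad D b k m x
    rw [ih, ih, map_sub, D.leibniz, smul_eq_mul, smul_eq_mul]
    cases k with
    | zero =>
      push_cast
      ring
    | succ j =>
      have h1 : ad D b (j + 1) m x = ad D b j m (b * x) - b * ad D b j m x := rfl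
      have h2 : j + 1 - 1 = j := rfl
      rw [h2]
      push_cast
      rw [h1]
      ring

theorem ad_zero (D : Derivation ℂ K K) (b : K) (m : ℕ) : ∀ k, m < k → ∀ x, ad D b k m x = 0 := by
  induction m with
  | zero =>
    intro k hk
    induction k with
    | zero => omega
    | succ k ih =>
      intro x
      change ad D b k 0 (b * x) - b * ad D b k 0 x = 0
      rcases Nat.eq_zero_or_pos k with rfl | hk0
      · exact sub_self (b * x)
      · rw [ih hk0, ih hk0, mul_zero, sub_zero]
  | succ m ih =>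
    intro k hk x
    rw [ad_succ, ih k (by omega), ih (k - 1) (by omega), map_zero, mul_zero, add_zero]

theorem ad_top (D : Derivation ℂ K K) (b : K) (m : ℕ) : ∀ x,
    ad D b m m x = (m.factorial : K) * D b ^ m * x := by
  induction m with
  | zero =>
    intro x
    change x = _
    rw [Nat.factorial_zero, Nat.cast_one, pow_zero, one_mul, one_mul]
  | succ m ih =>
    intro x
    rw [ad_succ, ad_zero D b m (m + 1) (Nat.lt_succ_self m), map_zero, zero_add, Nat.succ_sub_one,
      ih, Nat.factorial_succ]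
    push_cast
    ring

/-- derivatives of integral elements of the fraction field are integral -/
theorem der_int {D : Derivation ℂ K K} {R : Subalgebra ℂ K} (hst : Stab D R)
    (hno : IsNoetherianRing R) {b : K} (hb : b ∈ frac R) (hbi : IsIntegral R b) :
    IsIntegral R (D b) := by
  obtain ⟨s, hs, hs0, hsb⟩ := hb
  obtain ⟨⟨r, hrR⟩, hr0, hr⟩ : IsAlmostIntegral R b := by
    refine hbi.isAlmostIntegral_of_exists_smul_mem_range ⟨⟨s, hs⟩, ?_, ⟨⟨s * b, hsb⟩, rfl⟩⟩
    exact mem_nonZeroDivisors_of_ne_zero fun h => hs0 (congrArg Subtype.val h)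
  have hr0' : r ≠ 0 := fun h => nonZeroDivisors.ne_zero hr0 (Subtype.ext h)
  have hrb : ∀ i, r * b ^ i ∈ R := by
    intro i
    obtain ⟨a, ha⟩ := hr i
    have h1 : r * b ^ i = (a : K) := ha.symm
    rw [h1]
    exact a.2
  have hit : ∀ m x, x ∈ R → D^[m] x ∈ R := by
    intro m
    induction m with
    | zero => exact fun x hx => hx
    | succ m ih =>
      intro x hx
      rw [Function.iterate_succ_apply']
      exact hst _ (ih x hx)
  have key : ∀ m k, ∀ l j : ℕ, r * b ^ j * ad D b k m (r * b ^ l) ∈ R := by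
    intro m k
    induction k with
    | zero =>
      intro l j
      exact R.mul_mem (hrb j) (hit m _ (hrb l))
    | succ k ih =>
      intro l j
      have h1 : r * b ^ j * ad D b (k + 1) m (r * b ^ l) =
          r * b ^ j * ad D b k m (r * b ^ (l + 1)) - r * b ^ (j + 1) * ad D b k m (r * b ^ l) := by
        change r * b ^ j * (ad D b k m (b * (r * b ^ l)) - b * ad D b k m (r * b ^ l)) = _
        have h2 : b * (r * b ^ l) = r * b ^ (l + 1) := by ring
        rw [h2]
        ring
      rw [h1]
      exact R.sub_mem (ih _ _) (ih _ _)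
  have hcz : CharZero K := charZero_of_injective_algebraMap (algebraMap ℂ K).injective
  have hal : IsAlmostIntegral R (D b) := by
    refine ⟨⟨r * r, R.mul_mem hrR hrR⟩, mem_nonZeroDivisors_of_ne_zero fun h => ?_, fun m => ?_⟩
    · exact mul_ne_zero hr0' hr0' (congrArg Subtype.val h)
    · have h1 := key m m 0 0
      rw [pow_zero, mul_one, ad_top] at h1
      have h2 : r * r * D b ^ m = algebraMap ℂ K ((m.factorial : ℂ)⁻¹) *
          (r * ((m.factorial : K) * D b ^ m * r)) := by
        have h3 : algebraMap ℂ K ((m.factorial : ℂ)⁻¹) * (m.factorial : K) = 1 := by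
          rw [map_inv₀, map_natCast]
          exact inv_mul_cancel₀ (Nat.cast_ne_zero.2 (Nat.factorial_ne_zero m))
        linear_combination (-(r * r * D b ^ m)) * h3
      have h4 : r * r * D b ^ m ∈ R := by
        rw [h2]
        exact R.mul_mem (R.algebraMap_mem _) h1
      exact ⟨⟨_, h4⟩, rfl⟩
  exact hal.isIntegral

/-- **Differentially simple rings are normal.** -/
theorem normal_D {D : Derivation ℂ K K} {R : Subalgebra ℂ K} (hst : Stab D R)
    (hs : DSimple D R) (hno : IsNoetherianRing R) (hfg : R.FG) :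
    ∀ b ∈ frac R, IsIntegral R b → b ∈ R := by
  apply normal_of_one
  obtain ⟨r, hr, hr0, hrb⟩ := cond' R hfg
  refine hs (conI R) (fun x hx => hx.1) (fun x hx => ⟨hst x hx.1, fun b hb hbi => ?_⟩)
    ⟨r, ⟨hr, hrb⟩, hr0⟩
  have h1 := hst _ (hx.2 b hb hbi)
  rw [D.leibniz, smul_eq_mul, smul_eq_mul] at h1
  have h2 := hx.2 (D b) (stab_frac hst hb) (der_int hst hno hb hbi)
  have h3 := R.sub_mem h1 h2
  have h4 : x * D b + b * D x - x * D b = D x * b := by ring
  rwa [h4] at h3

/-! ### Towers -/

theorem fg_mat {R : Subalgebra ℂ K} (hR : R.FG) {n : ℕ} (X Y : Matrix (Fin n) (Fin n) K) :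
    (mat R X Y).FG := by
  refine Subalgebra.FG.sup hR ?_
  refine Subalgebra.fg_def.2 ⟨_, ?_, rfl⟩
  have h1 : {x | ∃ i j, x = X i j ∨ x = Y i j} =
      (Set.range fun p : Fin n × Fin n => X p.1 p.2) ∪
        Set.range fun p : Fin n × Fin n => Y p.1 p.2 := by
    ext x
    constructor
    · rintro ⟨i, j, rfl | rfl⟩
      · exact Or.inl ⟨(i, j), rfl⟩
      · exact Or.inr ⟨(i, j), rfl⟩
    · rintro (⟨p, rfl⟩ | ⟨p, rfl⟩)
      · exact ⟨p.1, p.2, Or.inl rfl⟩
      · exact ⟨p.1, p.2, Or.inr rfl⟩
  rw [h1]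
  exact (Set.finite_range _).union (Set.finite_range _)

theorem gtow_fg {Γ : Subgroup (K ≃ₐ[ℂ] K)} {R : Subalgebra ℂ K} (h : GTow Γ R) : R.FG := by
  induction h with
  | base => exact Subalgebra.fg_bot
  | step _ _ _ ih => exact fg_mat ih _ _

theorem ltow_fg {D : Derivation ℂ K K} {R0 R : Subalgebra ℂ K} (h0 : R0.FG)
    (h : LTow D R0 R) : R.FG := by
  induction h with
  | base => exact h0
  | step _ _ ih => exact fg_mat ih _ _

end

end Pool.Agent.Q1.BA
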