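import Pool.Agent.Q1.BD.Fam
import Pool.Agent.Q1.BA.Norm

/-!
Transport of integral points over finite extensions.
-/

set_option autoImplicit false

namespace Pool.Agent.Q1.BA

open Polynomial IntermediateField Pool.Agent.Y377.IL Pool.Agent.Q1.BD

/-- transport, the minimal polynomial of a coordinate being not constant -/
theorem transport2 {F0 F E M : Type} [Field F0] [Field F] [Field E] [Field M] [CharZero F0]
    [Algebra F0 F] [Algebra F E] [Algebra F0 E] [IsScalarTower F0 F E]
    (φ : F0 →+* RatFunc M) {m : ℕ} (y : Fin m → E) {θ : E} (p : F0[X]) (hp : p.Monic)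
    (hp1 : p.map (algebraMap F0 F) = minpoly F θ) (hint : IsIntegral F θ)
    (B : Fin m → F0[X]) (hB : ∀ u, aeval θ (B u) = y u) {u0 : Fin m} (q : F0[X]) (hq : q.Monic)
    (hq1 : q.map (algebraMap F0 F) = minpoly F (y u0)) (hq2 : IsIntegral F (y u0))
    (hnc : ∃ i, ∀ c : M, φ (q.coeff i) ≠ algebraMap M (RatFunc M) c) :
    ∃ Ψ : F0⟮θ⟯ →+* AlgebraicClosure (RatFunc M),
      (∀ a : F0, Ψ (algebraMap F0 F0⟮θ⟯ a) =
        algebraMap (RatFunc M) (AlgebraicClosure (RatFunc M)) (φ a)) ∧
      (∃ θ' : AlgebraicClosure (RatFunc M), IsIntegral (RatFunc M) θ' ∧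
        (minpoly (RatFunc M) θ').natDegree ≤ p.natDegree ∧
        ∀ x : F0⟮θ⟯, Ψ x ∈ (RatFunc M)⟮θ'⟯) ∧
      (∀ u, y u ∈ F0⟮θ⟯) ∧
      ∃ u, ∀ h : y u ∈ F0⟮θ⟯, ¬ IsAlgebraic M (Ψ ⟨y u, h⟩) := by
  classical
  set W := AlgebraicClosure (RatFunc M) with hW
  have hmin0 : ∀ (z : E) (p : F0[X]), p.Monic → p.map (algebraMap F0 F) = minpoly F z →
      IsIntegral F z → aeval z p = 0 ∧ Irreducible p ∧ p = minpoly F0 z := by
    intro z p hp hp1 hz
    have h0 : aeval z p = 0 := by
      have h1 := minpoly.aeval F z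
      rw [← hp1, aeval_map_algebraMap] at h1
      exact h1
    have hirr : Irreducible p := by
      refine hp.irreducible_of_irreducible_map (algebraMap F0 F) p ?_
      rw [hp1]
      exact minpoly.irreducible hz
    exact ⟨h0, hirr, minpoly.eq_of_irreducible_of_monic hirr h0 hp⟩
  obtain ⟨hpθ, hirr, hpm⟩ := hmin0 θ p hp hp1 hint
  obtain ⟨hqy, hqirr, hqm⟩ := hmin0 (y u0) q hq hq1 hq2
  have hint0 : IsIntegral F0 θ := ⟨p, hp, hpθ⟩
  let iA : Algebra F0 W := ((algebraMap (RatFunc M) W).comp φ).toAlgebra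
  let pb := adjoin.powerBasis hint0
  have hfd : FiniteDimensional F0 F0⟮θ⟯ := adjoin.finiteDimensional hint0
  have hgen : pb.gen = AdjoinSimple.gen F0 θ := adjoin.powerBasis_gen hint0
  have hy : ∀ u, y u ∈ F0⟮θ⟯ := by
    intro u
    rw [← hB u]
    exact algebra_adjoin_le_adjoin F0 {θ} (aeval_mem_adjoin_singleton _ _)
  -- a root which is not constant
  obtain ⟨ρ, hρ, hρn⟩ : ∃ ρ : W, aeval ρ q = 0 ∧ ¬ IsAlgebraic M ρ := by
    by_contra hcon
    push Not at hcon
    let A : IntermediateField M W := algebraicClosure M W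
    let q' : W[X] := q.map (algebraMap F0 W)
    have hqm' : q'.Monic := hq.map _
    have hq0 : q' ≠ 0 := hqm'.ne_zero
    let s : Finset W := q'.roots.toFinset
    have hroot : ∀ x ∈ s, aeval x q = 0 := by
      intro x hx
      have h1 := (mem_roots hq0).1 (Multiset.mem_toFinset.1 hx)
      rw [IsRoot.def, eval_map] at h1
      exact h1
    have hcard : s.card = q.natDegree := by
      have h1 : q'.roots.Nodup := nodup_roots (hqirr.separable.map)
      rw [Multiset.toFinset_card_of_nodup h1, ← (IsAlgClosed.splits q').natDegree_eq_card_roots]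
      exact natDegree_map _
    have hsA : ∀ x ∈ s, x ∈ A := fun x hx => mem_algebraicClosure_iff.2 (hcon x (hroot x hx))
    have hdeg : q.degree = (s.card : WithBot ℕ) := by
      rw [hcard, degree_eq_natDegree hq.ne_zero]
    obtain ⟨i, hi⟩ := hnc
    obtain ⟨c, hc⟩ : ∃ c : M, φ (q.coeff i) = algebraMap M (RatFunc M) c := by
      refine const_ratFunc ?_
      by_cases hin : i = q.natDegree
      · rw [hin, coeff_natDegree, hq.leadingCoeff, map_one, map_one]
        exact isAlgebraic_one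
      · have h1 := coeff_of_values A (q' - X ^ q.natDegree) s hsA (by
          rw [← hcard]
          have h2 : q'.degree = (s.card : WithBot ℕ) := by
            rw [← hdeg]
            exact degree_map _ _
          have h3 : (X ^ s.card : W[X]).degree = (s.card : WithBot ℕ) := degree_X_pow _
          have h4 := degree_sub_lt_left (h2.trans h3.symm) hq0 (by
            rw [hqm'.leadingCoeff, leadingCoeff_X_pow])
          rwa [h2] at h4) (fun x hx => by
            have h2 := hroot x hx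
            rw [eval_sub, eval_pow, eval_X]
            have h3 : eval x q' = 0 := by
              rw [eval_map]
              exact h2
            rw [h3, zero_sub]
            exact neg_mem (pow_mem (hsA x hx) _)) i
        rw [coeff_sub, coeff_X_pow, if_neg hin, sub_zero, coeff_map] at h1
        exact mem_algebraicClosure_iff.1 h1
    exact hi c hc
  let x0 : F0⟮θ⟯ := ⟨y u0, hy u0⟩
  have hx0 : minpoly F0 x0 = q := by
    rw [hqm]
    exact (minpoly.algebraMap_eq (B' := E) (algebraMap F0⟮θ⟯ E).injective x0).symm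
  obtain ⟨Ψ, hΨ⟩ := IntermediateField.exists_algHom_of_splits_of_aeval (F := F0) (E := F0⟮θ⟯)
    (K := W) (fun s => ⟨IsIntegral.of_finite _ _, IsAlgClosed.splits _⟩) (x := x0) (y := ρ)
    (by rw [hx0]; exact hρ)
  set θ' : W := Ψ pb.gen with hθ'
  have h : aeval θ' p = 0 := by
    have h1 : aeval pb.gen p = 0 := by
      have h2 := minpoly.aeval F0 pb.gen
      rw [hgen, minpoly_gen, ← hpm] at h2
      rw [hgen]
      exact h2
    rw [hθ', aeval_algHom_apply, h1, map_zero]
  have hθi : IsIntegral (RatFunc M) θ' := by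
    refine ⟨p.map φ, hp.map φ, ?_⟩
    have h1 : eval₂ (algebraMap (RatFunc M) W) θ' (p.map φ) = aeval θ' p := by
      rw [eval₂_map]
      rfl
    exact h1.trans h
  refine ⟨(Ψ : F0⟮θ⟯ →+* W), fun a => ?_, ⟨θ', hθi, ?_, fun x => ?_⟩, hy, u0, fun h' => ?_⟩
  · exact Ψ.commutes a
  · have h1 : aeval θ' (p.map φ) = 0 := by
      have h2 : aeval θ' (p.map φ) = eval₂ (algebraMap (RatFunc M) W) θ' (p.map φ) := rfl
      rw [h2, eval₂_map]
      exact h
    have h2 := natDegree_le_natDegree (minpoly.min (RatFunc M) θ' (hp.map φ) h1)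
    rwa [natDegree_map] at h2
  · obtain ⟨f, hf⟩ : ∃ f : F0[X], x = aeval pb.gen f := by
      obtain ⟨f, hf⟩ := pb.exists_eq_aeval' x
      exact ⟨f, hf⟩
    have h1 : Ψ x = aeval θ' f := by
      rw [hf, hθ', aeval_algHom_apply]
    change Ψ x ∈ _
    rw [h1]
    have h3 : aeval θ' f = aeval θ' (f.map φ) := by
      have h4 : aeval θ' (f.map φ) = eval₂ (algebraMap (RatFunc M) W) θ' (f.map φ) := rfl
      rw [h4, eval₂_map]
      rfl
    rw [h3]
    exact algebra_adjoin_le_adjoin (RatFunc M) {θ'} (aeval_mem_adjoin_singleton _ _)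
  · have h1 : (Ψ : F0⟮θ⟯ →+* W) ⟨y u0, h'⟩ = ρ := hΨ
    rw [h1]
    exact hρn

end Pool.Agent.Q1.BA
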